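import Pool.Agent.H168R3.Lower

/-!
# Off-diagonal Ramsey numbers for non-nested matchings

For all `a, b ≥ 1`: every 2-colouring of the edges of the ordered `K_m` contains a non-nested
matching with `a` edges of the first colour or one with `b` edges of the second colour if and only
if `m ≥ 2 max(a,b) + min(a,b) - 1`, as in the theorem of Cockayne and Lorimer for arbitrary
matchings.  Equivalently, the largest non-nested matchings of the two colours, with `x` and `y`
edges, satisfy `m ≤ 2 max(x,y) + min(x,y) + 1`, and all pairs with equality occur.  The case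
`a = b = n` is `f(n) = 3n - 1`.
-/

set_option autoImplicit false

namespace Pool.Agent.Results.MP_42cd19_co.OffDiagonalRamsey

open Pool.Agent.H168R2.NNDefs Pool.Agent.H168R3

/-- every 2-colouring of the edges of the ordered `K_m` has a non-nested matching of size `a` of
colour `true` or a non-nested matching of size `b` of colour `false` -/
def ArrowsOff (m a b : ℕ) : Prop :=
  ∀ c : Fin m → Fin m → Bool, HasMatching c true a ∨ HasMatching c false b

theorem hasMatching_mono {m : ℕ} {c : Fin m → Fin m → Bool} {t : Bool} {n k : ℕ} (hk : k ≤ n)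
    (h : HasMatching c t n) : HasMatching c t k := by
  obtain ⟨M, ⟨h1, h2⟩, h3, h4⟩ := h
  obtain ⟨M', hM', hc⟩ := Finset.exists_subset_card_eq (hk.trans h4.ge)
  exact ⟨M', ⟨fun e he => h1 e (hM' he), fun e he f hf => h2 e (hM' he) f (hM' hf)⟩,
    fun e he => h3 e (hM' he), hc⟩

/-- restriction of a matching to the first `m` vertices -/
theorem restrict {m k : ℕ} (c : Fin m → Fin m → Bool) (c' : Fin (m + k) → Fin (m + k) → Bool)
    (t : Bool) (hc : ∀ i j, c' (Fin.castAdd k i) (Fin.castAdd k j) = c i j)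
    (M : Finset (Fin (m + k) × Fin (m + k))) (hM : IsNonNestedMatching M)
    (ht : ∀ e ∈ M, c' e.1 e.2 = t) (n : ℕ)
    (hn : n ≤ (M.filter fun e => e.2.1 < m).card) : HasMatching c t n := by
  classical
  let ι : Fin m × Fin m → Fin (m + k) × Fin (m + k) := fun e =>
    (Fin.castAdd k e.1, Fin.castAdd k e.2)
  have hι : Function.Injective ι := by
    intro e f hef
    have h1 := congrArg Prod.fst hef
    have h2 := congrArg Prod.snd hef
    exact Prod.ext (Fin.castAdd_injective m k h1) (Fin.castAdd_injective m k h2)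
  refine hasMatching_mono hn ⟨Finset.univ.filter fun e => ι e ∈ M, ⟨?_, ?_⟩, ?_, ?_⟩
  · intro e he
    have h1 := hM.1 _ (Finset.mem_filter.1 he).2
    exact h1
  · intro e he f hf hne
    have h1 := hM.2 _ (Finset.mem_filter.1 he).2 _ (Finset.mem_filter.1 hf).2 (hι.ne hne)
    obtain ⟨⟨h2, h3, h4, h5⟩, h6⟩ := h1
    refine ⟨⟨fun h => h2 ?_, fun h => h3 ?_, fun h => h4 ?_, fun h => h5 ?_⟩, fun h => h6 ?_⟩
    · simp only [ι, h]
    · simp only [ι, h]
    · simp only [ι, h]
    · simp only [ι, h]
    · exact h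
  · intro e he
    rw [← hc]
    exact ht _ (Finset.mem_filter.1 he).2
  · rw [← Finset.card_image_of_injective _ hι]
    congr 1
    ext e
    simp only [Finset.mem_image, Finset.mem_filter, Finset.mem_univ, true_and]
    constructor
    · rintro ⟨f, hf, rfl⟩
      exact ⟨hf, f.2.2⟩
    · rintro ⟨he, h2⟩
      have h1 : e.1.1 < m := lt_trans (hM.1 e he) h2
      have h3 : ι (⟨e.1.1, h1⟩, ⟨e.2.1, h2⟩) = e := Prod.ext (Fin.ext rfl) (Fin.ext rfl)
      exact ⟨_, by rw [h3]; exact he, h3⟩

/-- the upper bound -/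
theorem arrowsOff_of_le {a b m : ℕ} (hb : 1 ≤ b) (hab : b ≤ a) (hm : 2 * a + b - 1 ≤ m) :
    ArrowsOff m a b := by
  classical
  intro c
  let c' : Fin (m + (a - b)) → Fin (m + (a - b)) → Bool := fun i j =>
    if h : i.1 < m ∧ j.1 < m then c ⟨i.1, h.1⟩ ⟨j.1, h.2⟩ else false
  have hc : ∀ i j, c' (Fin.castAdd (a - b) i) (Fin.castAdd (a - b) j) = c i j := by
    intro i j
    have h : (Fin.castAdd (a - b) i).1 < m ∧ (Fin.castAdd (a - b) j).1 < m := ⟨i.2, j.2⟩
    show (if h : _ then _ else _) = _
    rw [dif_pos h]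
    rfl
  obtain ⟨t, M, hM, ht, hcard⟩ := arrows_of_le (n := a) (m := m + (a - b)) (by omega) (by omega) c'
  cases t with
  | true =>
    left
    refine restrict c c' true hc M hM ht a ?_
    rw [Finset.filter_true_of_mem, hcard]
    intro e he
    by_contra hcon
    have h1 := ht e he
    have h2 : c' e.1 e.2 = false := dif_neg fun h => hcon h.2
    rw [h2] at h1
    exact Bool.false_ne_true h1
  | false =>
    right
    refine restrict c c' false hc M hM ht b ?_
    have h1 : (M.filter fun e => ¬ e.2.1 < m).card ≤ a - b := by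
      have hsub : (M.filter fun e => ¬ e.2.1 < m).image (fun e => e.2.1) ⊆
          Finset.Ico m (m + (a - b)) := by
        intro x hx
        obtain ⟨e, he, rfl⟩ := Finset.mem_image.1 hx
        have := (Finset.mem_filter.1 he).2
        rw [Finset.mem_Ico]
        exact ⟨by omega, e.2.2⟩
      have hinj : Set.InjOn (fun e : Fin (m + (a - b)) × Fin (m + (a - b)) => e.2.1)
          ((M.filter fun e => ¬ e.2.1 < m : Finset _) :
            Set (Fin (m + (a - b)) × Fin (m + (a - b)))) := by
        intro e he f hf hef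
        by_contra hne
        exact (hM.2 e (Finset.mem_filter.1 (Finset.mem_coe.1 he)).1 f
          (Finset.mem_filter.1 (Finset.mem_coe.1 hf)).1 hne).1.2.2.2 (Fin.ext hef)
      have h2 := Finset.card_le_card hsub
      rw [Finset.card_image_of_injOn hinj, Nat.card_Ico] at h2
      omega
    have h2 := Finset.card_filter_add_card_filter_not (s := M) (fun e => e.2.1 < m)
    omega

/-- the lower bound -/
theorem not_arrowsOff_of_lt {a b m : ℕ} (hb : 1 ≤ b) (hab : b ≤ a) (hm : m < 2 * a + b - 1) :
    ¬ ArrowsOff m a b := by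
  classical
  intro h
  rcases h (fun _ j => decide (j.1 < 2 * a - 1)) with ⟨M, ⟨hlt, hpair⟩, hcol, hcard⟩ |
    ⟨M, ⟨hlt, hpair⟩, hcol, hcard⟩
  · have hinj2 : Set.InjOn (fun e : Fin m × Fin m => e.2.1) (M : Set (Fin m × Fin m)) := by
      intro e he f hf hef
      by_contra hne
      exact (hpair e he f hf hne).1.2.2.2 (Fin.ext hef)
    have hinj1 : Set.InjOn (fun e : Fin m × Fin m => e.1.1) (M : Set (Fin m × Fin m)) := by
      intro e he f hf hef
      by_contra hne
      exact (hpair e he f hf hne).1.1 (Fin.ext hef)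
    have hsub1 : M.image (fun e : Fin m × Fin m => e.1.1) ⊆ Finset.range (2 * a - 1) := by
      intro x hx
      obtain ⟨e, he, rfl⟩ := Finset.mem_image.1 hx
      have h1 := of_decide_eq_true (hcol e he)
      have h2 : e.1.1 < e.2.1 := hlt e he
      rw [Finset.mem_range]
      omega
    have hsub2 : M.image (fun e : Fin m × Fin m => e.2.1) ⊆ Finset.range (2 * a - 1) := by
      intro x hx
      obtain ⟨e, he, rfl⟩ := Finset.mem_image.1 hx
      have h1 := of_decide_eq_true (hcol e he)
      rw [Finset.mem_range]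
      exact h1
    have hdisj : Disjoint (M.image (fun e : Fin m × Fin m => e.1.1))
        (M.image (fun e : Fin m × Fin m => e.2.1)) := by
      rw [Finset.disjoint_left]
      intro x hx hx'
      obtain ⟨e, he, hex⟩ := Finset.mem_image.1 hx
      obtain ⟨f, hf, hfx⟩ := Finset.mem_image.1 hx'
      have h1 : e.1 = f.2 := Fin.ext (hex.trans hfx.symm)
      by_cases hef : e = f
      · subst hef
        have := hlt e he
        rw [h1] at this
        exact lt_irrefl _ this
      · exact (hpair e he f hf hef).1.2.1 h1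
    have h1 := Finset.card_le_card (Finset.union_subset hsub1 hsub2)
    rw [Finset.card_union_of_disjoint hdisj, Finset.card_image_of_injOn hinj1,
      Finset.card_image_of_injOn hinj2, Finset.card_range, hcard] at h1
    omega
  · have hinj2 : Set.InjOn (fun e : Fin m × Fin m => e.2.1) (M : Set (Fin m × Fin m)) := by
      intro e he f hf hef
      by_contra hne
      exact (hpair e he f hf hne).1.2.2.2 (Fin.ext hef)
    have hsub : M.image (fun e : Fin m × Fin m => e.2.1) ⊆ Finset.Ico (2 * a - 1) m := by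
      intro x hx
      obtain ⟨e, he, rfl⟩ := Finset.mem_image.1 hx
      have := of_decide_eq_false (hcol e he)
      rw [Finset.mem_Ico]
      exact ⟨by omega, e.2.2⟩
    have h1 := Finset.card_le_card hsub
    rw [Finset.card_image_of_injOn hinj2, Nat.card_Ico, hcard] at h1
    omega

theorem hasMatching_not {m : ℕ} (c : Fin m → Fin m → Bool) (t : Bool) (n : ℕ) :
    HasMatching (fun i j => !c i j) t n ↔ HasMatching c (!t) n := by
  constructor
  · rintro ⟨M, hM, hc, hn⟩
    exact ⟨M, hM, fun e he => by rw [← hc e he, Bool.not_not], hn⟩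
  · rintro ⟨M, hM, hc, hn⟩
    exact ⟨M, hM, fun e he => by
      show (!c e.1 e.2) = t
      rw [hc e he, Bool.not_not], hn⟩

theorem arrowsOff_comm {m a b : ℕ} (h : ArrowsOff m a b) : ArrowsOff m b a := by
  intro c
  rcases h (fun i j => !c i j) with h1 | h1
  · exact Or.inr ((hasMatching_not c true a).1 h1)
  · exact Or.inl ((hasMatching_not c false b).1 h1)

theorem arrowsOff_iff {a b : ℕ} (ha : 1 ≤ a) (hb : 1 ≤ b) (m : ℕ) :
    ArrowsOff m a b ↔ 2 * max a b + min a b - 1 ≤ m := by
  have key : ∀ a b : ℕ, 1 ≤ b → b ≤ a → (ArrowsOff m a b ↔ 2 * a + b - 1 ≤ m) := by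
    intro a b hb hab
    constructor
    · intro h
      by_contra hlt
      exact not_arrowsOff_of_lt hb hab (not_le.1 hlt) h
    · exact arrowsOff_of_le hb hab
  rcases le_total b a with hab | hab
  · rw [max_eq_left hab, min_eq_right hab]
    exact key a b hb hab
  · rw [max_eq_right hab, min_eq_left hab, ← key b a ha hab]
    exact ⟨arrowsOff_comm, arrowsOff_comm⟩

theorem result :
    (∀ a b : ℕ, 1 ≤ a → 1 ≤ b → ∀ m : ℕ, ArrowsOff m a b ↔ 2 * max a b + min a b - 1 ≤ m) ∧
      ∀ n : ℕ, 1 ≤ n → f n = 3 * n - 1 ∧ ∀ m : ℕ, Arrows m n ↔ 3 * n - 1 ≤ m := by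
  refine ⟨fun a b ha hb m => arrowsOff_iff ha hb m, fun n hn => ?_⟩
  have hiff : ∀ m : ℕ, Arrows m n ↔ 3 * n - 1 ≤ m := by
    intro m
    constructor
    · intro h
      by_contra hlt
      exact not_arrows_of_lt (not_le.1 hlt) h
    · exact arrows_of_le hn
  refine ⟨?_, hiff⟩
  apply le_antisymm
  · exact Nat.sInf_le ⟨by omega, (hiff _).2 le_rfl⟩
  · refine le_csInf ⟨3 * n - 1, by omega, (hiff _).2 le_rfl⟩ ?_
    rintro m ⟨-, h⟩
    exact (hiff m).1 h

end Pool.Agent.Results.MP_42cd19_co.OffDiagonalRamsey
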